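import Pool.Agent.H.MP_15e1ec_an.Lower
import Pool.Agent.H.MP_15e1ec_an.FP

set_option autoImplicit false

open Filter Topology

namespace Pool.Agent.Results.MP_15e1ec_an.FactorizationNotUniform

/-- `e` is a normalized Schauder basis of `X` with biorthogonal functionals `f`:
the vectors have norm one, `f m (e n)` is `1` for `m = n` and `0` otherwise, the `f n` are bounded
functionals, and every `x` is the limit of its basis expansion. -/
structure IsNormalizedSchauderBasis {X : Type} [NormedAddCommGroup X] [NormedSpace ℝ X]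
    (e : ℕ → X) (f : ℕ → (X →L[ℝ] ℝ)) : Prop where
  norm_eq_one : ∀ n, ‖e n‖ = 1
  biorthogonal : ∀ m n, f m (e n) = if m = n then 1 else 0
  expansion : ∀ x, Tendsto (fun N => ∑ n ∈ Finset.range N, f n x • e n) atTop (𝓝 x)

/-- the identity factors through `T` -/
def Factors {X : Type} [NormedAddCommGroup X] [NormedSpace ℝ X] (T : X →L[ℝ] X) : Prop :=
  ∃ R S : X →L[ℝ] X, S ∘L T ∘L R = ContinuousLinearMap.id ℝ X

/-- the identity `K`-factors through `T` -/
def KFactors {X : Type} [NormedAddCommGroup X] [NormedSpace ℝ X] (K : ℝ) (T : X →L[ℝ] X) : Prop :=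
  ∃ R S : X →L[ℝ] X, S ∘L T ∘L R = ContinuousLinearMap.id ℝ X ∧ ‖R‖ * ‖S‖ ≤ K

/-- the identity almost `K`-factors through `T` -/
def AlmostKFactors {X : Type} [NormedAddCommGroup X] [NormedSpace ℝ X] (K : ℝ)
    (T : X →L[ℝ] X) : Prop :=
  ∀ ε : ℝ, 0 < ε → KFactors (K + ε) T

/-- the factorization property of a basis `e` with biorthogonal functionals `f` -/
def FactorizationProperty {X : Type} [NormedAddCommGroup X] [NormedSpace ℝ X]
    (e : ℕ → X) (f : ℕ → (X →L[ℝ] ℝ)) : Prop :=
  ∀ T : X →L[ℝ] X, (∃ δ : ℝ, 0 < δ ∧ ∀ n, δ ≤ |f n (T (e n))|) → Factors T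

/-- the uniform factorization property of a basis `e` with biorthogonal functionals `f` -/
def UniformFactorizationProperty {X : Type} [NormedAddCommGroup X] [NormedSpace ℝ X]
    (e : ℕ → X) (f : ℕ → (X →L[ℝ] ℝ)) : Prop :=
  ∀ δ : ℝ, 0 < δ → ∃ K : ℝ, 1 ≤ K ∧
    ∀ T : X →L[ℝ] X, (∀ n, δ ≤ |f n (T (e n))|) → AlmostKFactors K T

open Pool.Agent.H.MP_15e1ec_an in
/-- There is a Banach space with a normalized (even `1`-unconditional) Schauder basis which has the
factorization property but not the uniform factorization property. -/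
theorem result : ∃ (X : Type) (_ : NormedAddCommGroup X) (_ : NormedSpace ℝ X)
    (_ : CompleteSpace X) (e : ℕ → X) (f : ℕ → (X →L[ℝ] ℝ)),
    IsNormalizedSchauderBasis e f ∧
    (∀ x y : X, (∀ n, |f n x| ≤ |f n y|) → ‖x‖ ≤ ‖y‖) ∧
    FactorizationProperty e f ∧
    ¬ UniformFactorizationProperty e f := by
  haveI : Infinite Idx := Infinite.of_injective (fun k : ℕ => (⟨k, ⟨0, by positivity⟩⟩ : Idx))
    (fun a b h => congrArg Sigma.fst h)
  obtain ⟨φ⟩ : Nonempty (ℕ ≃ Idx) := nonempty_equiv_of_countable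
  refine ⟨Pool.Agent.H.MP_15e1ec_an.X, inferInstance, inferInstance, inferInstance,
    fun n => bas (φ n), fun n => co (φ n), ⟨fun n => norm_bas _, ?_, ?_⟩, ?_, ?_, ?_⟩
  · intro m n
    rw [co_bas]
    simp [φ.injective.eq_iff]
  · intro x
    exact ((Equiv.hasSum_iff φ).2 (hasSum_co x)).tendsto_sum_nat
  · intro x y h
    have h' : ∀ i : Idx, |co i x| ≤ |co i y| := by
      intro i
      obtain ⟨n, rfl⟩ := φ.surjective i
      exact h n
    have h1 : ‖x‖ ^ 2 ≤ ‖y‖ ^ 2 := by
      rw [norm_sq, norm_sq]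
      apply Summable.tsum_le_tsum _ (summable_sq x) (summable_sq y)
      intro v
      apply pow_le_pow_left₀ (norm_nonneg _)
      apply norm_apply_le
      intro k _
      apply norm_cmp_le_of_co
      intro s
      exact h' ⟨k, s⟩
    exact le_of_sq_le_sq h1 (norm_nonneg _)
  · rintro T ⟨δ, hδ, hT⟩
    apply factors T hδ
    intro i
    obtain ⟨n, rfl⟩ := φ.surjective i
    exact hT n
  · intro hU
    obtain ⟨K, _, hK⟩ := hU 1 one_pos
    obtain ⟨k, hk⟩ := no_uniform (K + 1)
    obtain ⟨R, S, hRS, hle⟩ := hK (bad k) (fun n => by rw [co_bad]; simp) 1 one_pos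
    have := hk R S (fun x => DFunLike.congr_fun hRS x)
    linarith

end Pool.Agent.Results.MP_15e1ec_an.FactorizationNotUniform
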